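import Pool.Agent.Helper65.SPT.Main

/-!
MP_2ec7a7_al: the automorphism groups of the Artin groups of spherical type: `H3`, `H4`, `E6`, `E7`,
`E8`, `F4`.

Method: the dual Garside structure, in which `δ = c` is the product of the generators: its simple elements
are the noncrossing partitions, which are treated with tables checked by the kernel. An automorphism
maps `z` to `z` or `z⁻¹`, and so it maps `c`, a root of `z`, to a conjugate of `c` or `c⁻¹` (times a power
of `z`); the images of the generators are then found among the elements of the centralizers of the
powers of `c`.
-/

set_option autoImplicit false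

open Pool.Agent.Helper65.SPT

/-- The automorphism groups of the Artin groups of the types `H3`, `H4`, `E6`, `E7`, `E8` (the outer
automorphism group has order two) and `F4` (it is the product of the infinite dihedral group and a group
of order two). The Coxeter matrices are those of Mathlib. -/
theorem Pool.Agent.Results.MP_2ec7a7_al.SphericalTypes.result :
    OutOrderTwo (gen CoxeterMatrix.H₃) 5 ∧ OutOrderTwo (gen CoxeterMatrix.H₄) 15 ∧
    OutOrderTwo (gen CoxeterMatrix.E₆) 12 ∧ OutOrderTwo (gen CoxeterMatrix.E₇) 9 ∧
    OutOrderTwo (gen CoxeterMatrix.E₈) 15 ∧ OutDihedral (gen CoxeterMatrix.F₄) 6 :=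
  main
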