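import Pool.Agent.Helper34.BN.B11

/-!
MP_2ec7a7_al: the automorphism groups of the Artin groups of the affine types `B̃_n`, `n ≥ 3`.
-/

set_option autoImplicit false

namespace Pool.Agent.Results.MP_2ec7a7_al.TypeBTilde

/-- the alternating product `s t s t ⋯` with `n` factors -/
def alt {G : Type*} [Monoid G] : G → G → ℕ → G
  | _, _, 0 => 1
  | s, t, n + 1 => s * alt t s n

/-- the relators `s t s ⋯ = t s t ⋯` (`M s t` factors) of the Artin group of `M`; for
`M s t = 0` (which stands for `∞`) and for `s = t` this is the trivial relator -/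
def rels {S : Type*} (M : CoxeterMatrix S) : Set (FreeGroup S) :=
  {w | ∃ s t, w = alt (FreeGroup.of s) (FreeGroup.of t) (M s t) *
    (alt (FreeGroup.of t) (FreeGroup.of s) (M s t))⁻¹}

/-- the Artin group of the Coxeter matrix `M` -/
abbrev Artin {S : Type*} (M : CoxeterMatrix S) : Type _ := PresentedGroup (rels M)

/-- the entries of the Coxeter matrix of type `B̃_n` -/
def btE (n i j : ℕ) : ℕ :=
  if i = j then 1
  else if (i = 0 ∧ j = 2) ∨ (j = 0 ∧ i = 2) then 3
  else if (i ≠ 0 ∧ j = i + 1) ∨ (j ≠ 0 ∧ i = j + 1) then (if i = n ∨ j = n then 4 else 3)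
  else 2

/-- the Coxeter matrix of the affine type `B̃_n` -/
def Bt (n : ℕ) : CoxeterMatrix (Fin (n + 1)) where
  M := Matrix.of fun i j => btE n i j
  isSymm := by
    ext i j
    simp only [Matrix.transpose_apply, Matrix.of_apply, btE]
    split_ifs <;> first | rfl | omega
  diagonal := by intro i; simp [btE]
  off_diagonal := by
    intro i j h
    have : (i : ℕ) ≠ j := fun e => h (Fin.ext e)
    simp only [Matrix.of_apply, btE]
    split_ifs <;> omega

/-- `ε` inverts the elements `gen s` -/
def InvertsGens {S G : Type*} [Group G] (gen : S → G) (ε : MulAut G) : Prop :=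
  ∀ s, ε (gen s) = (gen s)⁻¹

/-- `τ` exchanges `gen 0` and `gen 1` and fixes the other elements `gen s` -/
def SwapsLeaves {G : Type*} [Group G] {n : ℕ} (gen : Fin (n + 1) → G) (τ : MulAut G) : Prop :=
  τ (gen 0) = gen 1 ∧ τ (gen 1) = gen 0 ∧ ∀ s : Fin (n + 1), 2 ≤ s.val → τ (gen s) = gen s

/-- every automorphism of `G` is in exactly one way of the form `conj x`, `conj x * ε`,
`conj x * τ` or `conj x * (ε * τ)` with `x` in `G` -/
def UniqueForm2 {G : Type*} [Group G] (ε τ : MulAut G) : Prop :=
  Function.Bijective (fun p : G × Bool × Bool =>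
    MulAut.conj p.1 * ((if p.2.1 = true then ε else 1) * (if p.2.2 = true then τ else 1)))

/-- the inner automorphisms -/
def Inn (G : Type*) [Group G] : Subgroup (MulAut G) := (MulAut.conj : G →* MulAut G).range

instance Inn_normal (G : Type*) [Group G] : (Inn G).Normal := by
  refine ⟨?_⟩
  rintro _ ⟨x, rfl⟩ φ
  refine ⟨φ x, ?_⟩
  ext y
  simp [MulAut.mul_apply]

/-- the outer automorphism group -/
abbrev Out (G : Type*) [Group G] : Type _ := MulAut G ⧸ Inn G

/-- there is an isomorphism of `Out G` with the group `{1, -1} × {1, -1}` which maps the class of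
`ε` to `(-1, 1)` and the class of `τ` to `(1, -1)` -/
def OutKlein {G : Type*} [Group G] (ε τ : MulAut G) : Prop :=
  ∃ e : Out G ≃* ℤˣ × ℤˣ, e (QuotientGroup.mk ε) = (-1, 1) ∧ e (QuotientGroup.mk τ) = (1, -1)

/-- the extension `1 → Inn G → Aut G → Out G → 1` splits: `Aut G → Out G` has a section which is
a homomorphism -/
def Splits (G : Type*) [Group G] : Prop :=
  ∃ σ : Out G →* MulAut G, ∀ o, QuotientGroup.mk (σ o) = o

/-- `ε` and `τ` are commuting involutions, `ε` inverts the elements `gen s`, `τ` exchanges `gen 0` and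
`gen 1` and fixes the others, and all automorphisms of `G` and `Out G` are described by `ε`, `τ` and
the elements of `G` as in `UniqueForm2`, `OutKlein` and `Splits` -/
def Described {G : Type*} [Group G] {n : ℕ} (gen : Fin (n + 1) → G) (ε τ : MulAut G) : Prop :=
  InvertsGens gen ε ∧ SwapsLeaves gen τ ∧ ε * ε = 1 ∧ τ * τ = 1 ∧ ε * τ = τ * ε ∧
    UniqueForm2 ε τ ∧ OutKlein ε τ ∧ Splits G

set_option smartUnfolding false in
/-- Let `n ≥ 3` and let `A` be the Artin group of type `B̃_n`: generators `0, 1, …, n`, labels
`m(0,2) = 3`, `m(i,i+1) = 3` for `1 ≤ i ≤ n - 2`, `m(n-1,n) = 4` and `m = 2` for the other pairs.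
The map `s ↦ s⁻¹` on the generators extends to an automorphism `ε` of `A`, the exchange of the
generators `0` and `1` extends to an automorphism `τ`, both have order two and they commute, and
every automorphism of `A` can be written in exactly one way as `conj x`, `conj x * ε`,
`conj x * τ` or `conj x * (ε * τ)` with `x` in `A` (in particular the center is trivial).  The
outer automorphism group is isomorphic to `{1, -1} × {1, -1}`, with the classes of `ε`, `τ` as
generators, and the extension `1 → Inn A → Aut A → Out A → 1` splits. -/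
theorem result (n : ℕ) (hn : 3 ≤ n) : ∃ ε τ, Described (G := Artin (Bt n)) PresentedGroup.of ε τ :=
  Pool.Agent.Helper34.BN.main n hn

end Pool.Agent.Results.MP_2ec7a7_al.TypeBTilde
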