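import Pool.Agent.Helper7.D4.All

/-!
MP_2ec7a7_al: the automorphism groups of the Artin groups of the affine types `D̃_n`, `n ≥ 4`.
-/

set_option autoImplicit false

namespace Pool.Agent.Results.MP_2ec7a7_al.TypeDTilde

/-- The product `s t s t ⋯` with `n` factors. -/
def alt {G : Type} [Monoid G] : G → G → ℕ → G
  | _, _, 0 => 1
  | s, t, n + 1 => s * alt t s n

/-- The relators of the Artin group of a Coxeter matrix: `(s t s ⋯) (t s t ⋯)⁻¹`, with `m(s,t)`
factors in each of the two products. -/
def rels {S : Type} (M : CoxeterMatrix S) : Set (FreeGroup S) :=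
  {w | ∃ s t, w = alt (FreeGroup.of s) (FreeGroup.of t) (M s t) *
    (alt (FreeGroup.of t) (FreeGroup.of s) (M s t))⁻¹}

/-- The standard generators of the Artin group of a Coxeter matrix. -/
def gen {S : Type} (M : CoxeterMatrix S) (s : S) : PresentedGroup (rels M) := PresentedGroup.of s

/-- the entries of the Coxeter matrix of type `D̃_n` -/
def dtE (n i j : ℕ) : ℕ :=
  if i = j then 1
  else if (i = 0 ∧ j = 2) ∨ (j = 0 ∧ i = 2) then 3
  else if (i + 2 = n ∧ j = n) ∨ (j + 2 = n ∧ i = n) then 3
  else if (i ≠ 0 ∧ j = i + 1 ∧ j ≠ n) ∨ (j ≠ 0 ∧ i = j + 1 ∧ i ≠ n) then 3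
  else 2

/-- the Coxeter matrix of the affine type `D̃_n` -/
def Dt (n : ℕ) : CoxeterMatrix (Fin (n + 1)) where
  M := Matrix.of fun i j => dtE n i j
  isSymm := by
    ext i j
    simp only [Matrix.transpose_apply, Matrix.of_apply, dtE]
    split_ifs <;> first | rfl | omega
  diagonal := by intro i; simp [dtE]
  off_diagonal := by
    intro i j h
    have : (i : ℕ) ≠ j := fun e => h (Fin.ext e)
    simp only [Matrix.of_apply, dtE]
    split_ifs <;> omega

/-- The group `E` of the automorphisms of the Coxeter graph of `M`: the permutations which preserve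
the labels. -/
def GraphAut {S : Type} (M : CoxeterMatrix S) : Subgroup (Equiv.Perm S) where
  carrier := {g | ∀ s t, M (g s) (g t) = M s t}
  one_mem' := fun _ _ => rfl
  mul_mem' := fun {g h} hg hh s t => by
    rw [Equiv.Perm.mul_apply, Equiv.Perm.mul_apply, hg, hh]
  inv_mem' := fun {g} hg s t => by
    have h := hg (g⁻¹ s) (g⁻¹ t)
    have e : ∀ x, g (g⁻¹ x) = x := fun x => Equiv.apply_symm_apply g x
    rw [e, e] at h
    exact h.symm

/-- The group of inner automorphisms. -/
def Inn (G : Type) [Group G] : Subgroup (MulAut G) := (MulAut.conj : G →* MulAut G).range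

instance (G : Type) [Group G] : (Inn G).Normal :=
  ⟨by rintro _ ⟨x, rfl⟩ φ; exact ⟨φ x, by ext y; simp⟩⟩

/-- The outer automorphism group. -/
abbrev Out (G : Type) [Group G] : Type := MulAut G ⧸ Inn G

/-- The extension of `Out G` by `Inn G` splits. -/
def Splits (G : Type) [Group G] : Prop :=
  ∃ σ : Out G →* MulAut G, ∀ o, QuotientGroup.mk (σ o) = o

/-- `Out G` is isomorphic to `E × {1, -1}`: the class of `γ g` corresponds to `(g, 1)`, the class of
`ε` to `(1, -1)`. -/
def OutProd {G E : Type} [Group G] [Group E] (ε : MulAut G) (γ : E →* MulAut G) : Prop :=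
  ∃ f : Out G ≃* E × ℤˣ, (∀ g, f (QuotientGroup.mk (γ g)) = (g, 1)) ∧
    f (QuotientGroup.mk ε) = (1, -1)

/-- The group `G` has the generators `a s`, and `E` acts on the indices by `ρ`. There are an
automorphism `ε` with `a s ↦ (a s)⁻¹`, `ε² = 1`, and a homomorphism `γ` from `E` to `Aut G` such that
`γ g` permutes the generators as `ρ g` and commutes with `ε`; every automorphism of `G` is in exactly
one way `conj x * γ g` or `conj x * γ g * ε`; `Out G` is isomorphic to `E × {1, -1}`; the extension
splits. -/
def Described {S G E : Type} [Group G] [Group E] (a : S → G) (ρ : E →* Equiv.Perm S) : Prop :=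
  ∃ (ε : MulAut G) (γ : E →* MulAut G), (∀ s, ε (a s) = (a s)⁻¹) ∧
    (∀ g s, γ g (a s) = a (ρ g s)) ∧ ε * ε = 1 ∧ (∀ g, ε * γ g = γ g * ε) ∧
    Function.Bijective (fun q : G × E × Bool =>
      MulAut.conj q.1 * γ q.2.1 * (if q.2.2 = true then ε else 1)) ∧
    OutProd ε γ ∧ Splits G

theorem alt_eq {G : Type} [Monoid G] (n : ℕ) : ∀ s t : G, alt s t n =
    Pool.Agent.Helper7.AG.alt s t n := by
  induction n with
  | zero => intro s t; rfl
  | succ n ih => intro s t; unfold alt Pool.Agent.Helper7.AG.alt; rw [ih]

theorem rels_eq {S : Type} (M : CoxeterMatrix S) : rels M = Pool.Agent.Helper7.AG.rels M := by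
  unfold rels Pool.Agent.Helper7.AG.rels
  simp only [alt_eq]

theorem described {n : ℕ} (M : CoxeterMatrix (Fin (n + 1)))
    (h : Pool.Agent.Helper20.DN.Described M) : Described (gen M) (GraphAut M).subtype := by
  have key : ∀ R : Set (FreeGroup (Fin (n + 1))), R = Pool.Agent.Helper7.AG.rels M →
      Described (fun i => (PresentedGroup.of i : PresentedGroup R)) (GraphAut M).subtype := by
    rintro _ rfl
    obtain ⟨ε, γ, h1, h2, h3, h4, h5, h6, h7⟩ := h
    exact ⟨ε, γ, h1, h2, h3, h4, h5, h6, h7⟩
  exact key _ (rels_eq M)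

/-- Let `n ≥ 4` and let `A` be the Artin group of type `D̃_n`: generators `0, 1, …, n`, labels
`m(0,2) = 3`, `m(i,i+1) = 3` for `1 ≤ i ≤ n - 2`, `m(n-2,n) = 3` and `m = 2` for the other pairs
(for `n = 4` the star with the four leaves `0, 1, 3, 4` and the center `2`).
Let `E` be the group of the automorphisms of the Coxeter graph (the permutations of the nodes which
preserve the labels).  The map `s ↦ s⁻¹` on
the generators extends to an automorphism `ε` of `A` of order two, the permutations in `E` extend to
automorphisms `γ g` of `A` which commute with `ε`, and every automorphism of `A` can be written in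
exactly one way as `conj x * γ g` or `conj x * γ g * ε` with `x` in `A` and `g` in `E` (in particular
the center is trivial).  The outer automorphism group is isomorphic to `E × {1, -1}`, the class of
`γ g` corresponding to `(g, 1)` and the class of `ε` to `(1, -1)`, and the extension
`1 → Inn A → Aut A → Out A → 1` splits.  The group `E` is isomorphic to the dihedral group of order
eight for `n ≥ 5` and to the symmetric group `S_4` for `n = 4`. -/
theorem result (n : ℕ) (hn : 4 ≤ n) :
    Described (gen (Dt n)) (GraphAut (Dt n)).subtype ∧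
      (5 ≤ n → Nonempty (GraphAut (Dt n) ≃* DihedralGroup 4)) ∧
      (n = 4 → Nonempty (GraphAut (Dt n) ≃* Equiv.Perm (Fin 4))) := by
  have h := Pool.Agent.Helper7.D4.main4 n hn
  exact ⟨described _ h.1, h.2.1, h.2.2⟩

end Pool.Agent.Results.MP_2ec7a7_al.TypeDTilde
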