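import Pool.Agent.Helper7.AG.Stmt

/-!
MP_2ec7a7_al: the automorphism group of the Artin group of the affine type `G̃_2`.
-/

set_option autoImplicit false

namespace Pool.Agent.Results.MP_2ec7a7_al.TypeG2Tilde

open Pool.Agent.Helper7.AG

/-- Let `A` be the Artin group of type `G̃_2` (generators `0, 1, 2`, labels `m(0,1) = 3`,
`m(1,2) = 6`, `m(0,2) = 2`).  The map `s ↦ s⁻¹` on the generators extends to an automorphism `ε` of
order two, and every automorphism of `A` can be written in exactly one way as `conj x` or as
`conj x * ε` with `x` in `A` (in particular the center is trivial and `ε` is not inner).  The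
outer automorphism group has order two, generated by the class of `ε`, and the extension
`1 → Inn A → Aut A → Out A → 1` splits. -/
theorem result :
    ∃ ε : MulAut (Artin G2t), InvertsGens G2t ε ∧ SqOne (Artin G2t) ε ∧
      UniqueForm (Artin G2t) ε ∧ OutGenBy (Artin G2t) ε ∧ Splits (Artin G2t) :=
  ⟨eps, invertsGens_eps, eps_eps, uniqueForm_eps, outGenBy_eps, splits_GA⟩

end Pool.Agent.Results.MP_2ec7a7_al.TypeG2Tilde
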